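import Pool.Agent.K1H9.RP.Last

set_option autoImplicit false

namespace Pool.Agent.Results.MP_bc6d74_co.GaussianPoints

open MeasureTheory ProbabilityTheory

/-- The probability that `(A, B)` is a Radon partition of `N` independent standard normal
points of `ℝ^d`. -/
noncomputable def radonProb (d N : ℕ) (A B : Finset (Fin N)) : ℝ :=
  (Measure.pi fun _ : Fin N => stdGaussian (EuclideanSpace ℝ (Fin d))).real
    {x | (convexHull ℝ (x '' (A : Set (Fin N))) ∩
      convexHull ℝ (x '' (B : Set (Fin N)))).Nonempty}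

/-- More balanced partitions are more likely to be Radon partitions of Gaussian points. -/
theorem result (d N : ℕ) (hd : 1 ≤ d) (hN : d + 2 ≤ N) (A B A' B' : Finset (Fin N))
    (hAB : Disjoint A B) (hAB1 : A ∪ B = Finset.univ) (hAB' : Disjoint A' B')
    (hAB1' : A' ∪ B' = Finset.univ) (h1 : A.card < A'.card) (h2 : A'.card ≤ B'.card)
    (_h3 : B'.card < B.card) : radonProb d N A B < radonProb d N A' B' := by
  have hc : IsCompl A B := ⟨hAB, codisjoint_iff.2 hAB1⟩
  have hc' : IsCompl A' B' := ⟨hAB', codisjoint_iff.2 hAB1'⟩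
  have e1 : B = Aᶜ := hc.compl_eq.symm
  have e2 : B' = A'ᶜ := hc'.compl_eq.symm
  subst e1
  subst e2
  have h := Pool.Agent.K1H9.RP.main d N hd hN A A' h1 h2
  unfold Pool.Agent.K1H9.RP.radonProb at h
  unfold radonProb
  rw [Finset.coe_compl, Finset.coe_compl]
  exact h

end Pool.Agent.Results.MP_bc6d74_co.GaussianPoints
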